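import Pool.Agent.H43.Nu2

set_option autoImplicit false

namespace Pool.Agent.Results.MP_6c3571_pr.Counter

open Pool.Agent.H43.Nu MeasureTheory ProbabilityTheory unitInterval
open scoped ENNReal

lemma phi_ge (o : W) : 24 ≤ Phi Gam o := by
  classical
  refine le_csInf ⟨_, {o}, by simp, rfl⟩ ?_
  rintro _ ⟨F, hF, rfl⟩
  have pos := wt_pos locfin conn Gam o
  have fin : (bdry T F).Finite := (F.finite_toSet.biUnion fun x _ => locfin x).subset
    fun y ⟨_, x, h1, h2⟩ => Set.mem_biUnion h1 h2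
  rw [finsum_mem_eq_finite_toFinset_sum _ fin, le_div_iff₀ (Finset.sum_pos (fun x _ => pos x) hF)]
  have h1 : ∑ y ∈ F.image up, wt Gam o y = 25 * ∑ x ∈ F, wt Gam o x := by
    rw [Finset.sum_image up_inj.injOn, Finset.mul_sum]
    exact Finset.sum_congr rfl fun x _ => wt_E o (up_E x)
  have h2 : ∑ y ∈ F.image up, wt Gam o y ≤ ∑ y ∈ F ∪ fin.toFinset, wt Gam o y := by
    refine Finset.sum_le_sum_of_subset_of_nonneg (fun y hy => ?_) fun y _ _ => (pos y).le
    obtain ⟨x, hx, rfl⟩ := Finset.mem_image.1 hy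
    by_cases h : up x ∈ F
    · exact Finset.mem_union_left _ h
    · exact Finset.mem_union_right _ (fin.mem_toFinset.2 ⟨h, x, hx, .inl (up_E x)⟩)
  rw [Finset.sum_union (Finset.disjoint_right.2 fun y hy => (fin.mem_toFinset.1 hy).1)] at h2
  linarith

lemma nbr_sum (o x : W) : ∑' y : T.neighborSet x, ENNReal.ofReal √(wt Gam o y) ≤
    20 * ENNReal.ofReal √(wt Gam o x) := by
  have s25 : ∀ t : ℝ, √(25 * t) = 5 * √t := fun t => by
    rw [Real.sqrt_mul (by norm_num), show (25 : ℝ) = 5 ^ 2 by norm_num,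
      Real.sqrt_sq (by norm_num)]
  refine (ENNReal.tsum_union_le (fun y => ENNReal.ofReal √(wt Gam o y))
    {y | E x y} {y | E y x}).trans ?_
  have h1 : ∀ y : {y | E x y}, ENNReal.ofReal √(wt Gam o y) =
      ENNReal.ofReal (5 * √(wt Gam o x)) := fun y => by rw [wt_E o y.2, s25]
  have h2 : ∀ y : {y | E y x}, ENNReal.ofReal √(wt Gam o y) =
      ENNReal.ofReal (√(wt Gam o x) / 5) := fun y => by
    rw [wt_E o y.2, s25]
    congr 1
    ring
  rw [tsum_congr h1, tsum_congr h2, ENNReal.tsum_set_const, ENNReal.tsum_set_const, card_out,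
    card_in]
  have := Real.sqrt_nonneg (wt Gam o x)
  have e : ∀ (n : ℕ) (t : ℝ), ((n : ℕ∞) : ℝ≥0∞) * ENNReal.ofReal t = ENNReal.ofReal (n * t) :=
    fun n t => by rw [ENNReal.ofReal_mul n.cast_nonneg]; simp
  refine le_of_eq (Eq.trans (congrArg₂ _ (e 2 _) (e 50 _)) (Eq.trans ?_ (e 20 _).symm))
  rw [← ENNReal.ofReal_add (by positivity) (by positivity)]
  congr 1
  push_cast
  ring

lemma ph_ge (o : W) : 1 / 20 ≤ pH Gam o := by
  have pos := wt_pos locfin conn Gam o
  refine le_csInf ⟨1, ⟨zero_le_one, le_rfl⟩, ?_⟩ ?_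
  · change 0 < setBernoulli T.edgeSet 1 _
    rw [setBernoulli_one, Measure.dirac_apply_of_mem]
    · exact zero_lt_one
    refine ⟨o, ?_⟩
    have : clus T T.edgeSet o = Set.univ := by
      ext y
      simpa [clus] using conn o y
    rw [Heavy, this, tsum_univ (fun x => ENNReal.ofReal (wt Gam o x))]
    by_contra h
    have h1 := ENNReal.tsum_comp_le_tsum_of_injective up_inj fun x => ENNReal.ofReal (wt Gam o x)
    have h2 : ∀ x, ENNReal.ofReal (wt Gam o (up x)) = 25 * ENNReal.ofReal (wt Gam o x) :=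
      fun x => by rw [wt_E o (up_E x), ENNReal.ofReal_mul (by norm_num)]; simp
    rw [tsum_congr h2, ENNReal.tsum_mul_left] at h1
    have h3 : ∑' x, ENNReal.ofReal (wt Gam o x) ≠ 0 :=
      ((ENNReal.ofReal_pos.2 (pos o)).trans_le (ENNReal.le_tsum o)).ne'
    have h4 := (ENNReal.mul_le_mul_iff_left h3 h).1 (h1.trans_eq (one_mul _).symm)
    norm_num at h4
  · rintro p ⟨hp, h⟩
    by_contra h1
    refine h.ne' ?_
    have hp' : (toNNReal ⟨p, hp⟩ : ℝ≥0∞) * 20 < 1 := by
      have : toNNReal ⟨p, hp⟩ * 20 < 1 := by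
        rw [← NNReal.coe_lt_coe]
        change p * 20 < 1
        linarith [not_le.1 h1]
      exact_mod_cast this
    rw [Set.ofPred_exists, measure_iUnion_null_iff]
    intro x
    refine measure_mono_null (fun ω hω => ?_)
      (light (fun y => ENNReal.ofReal √(wt Gam o y)) 20 (nbr_sum o) _ hp' x ENNReal.ofReal_ne_top)
    by_contra h2
    refine ne_top_of_le_ne_top (ENNReal.mul_ne_top h2 h2) ?_ hω
    rw [← ENNReal.tsum_mul_right]
    refine ENNReal.tsum_le_tsum fun y => ?_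
    refine le_trans (le_of_eq ((congrArg _ (Real.mul_self_sqrt (pos y).le).symm).trans
      (ENNReal.ofReal_mul (Real.sqrt_nonneg _)))) ?_
    exact mul_le_mul_right (ENNReal.le_tsum (f := fun y : clus T ω x =>
      ENNReal.ofReal √(wt Gam o y)) y) _

theorem result : ∃ (V : Type) (G : SimpleGraph V) (Γ : Subgroup (G ≃g G)),
    Infinite V ∧ G.Connected ∧ (∀ v, (G.neighborSet v).Finite) ∧ Closed Γ ∧ Trans Γ ∧
      ∀ o : V, 24 ≤ Phi Γ o ∧ 1 / 20 ≤ pH Γ o ∧ 1 / (Phi Γ o + 1) < pH Γ o := by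
  refine ⟨W, T, Gam, ?_, conn, locfin, closed, trans, fun o => ⟨phi_ge o, ph_ge o, ?_⟩⟩
  · by_contra h
    rw [not_infinite_iff_finite] at h
    obtain ⟨x, hx⟩ := Finite.injective_iff_surjective.1 up_inj rt
    simpa [up, rt] using congrArg Subtype.val hx
  · have := phi_ge o
    refine lt_of_lt_of_le ?_ (ph_ge o)
    exact one_div_lt_one_div_of_lt (by norm_num) (by linarith)

end Pool.Agent.Results.MP_6c3571_pr.Counter
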